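import Pool.Agent.Work.MP_f7ef37_lc.Up.Main

/-!
# Res(t) refutations of the pigeonhole principle of size `exp (n ^ (1 / (t + 1) + o(1)))`

`HasRefutation t m n S` (in `Pool/Agent/Work/MP_f7ef37_lc/Up/Main.lean`): the pigeonhole principle
with `m` pigeons and `n` holes has a Res(t) refutation with at most `S` literal occurrences, in the
calculus of the frozen statement; only the pigeon axioms and the collision axioms are used, not the
functional and not the onto axioms.

First part: if `m ≥ n ^ L` and `n ≤ L ^ (t + 1) * ⌊log₂ n⌋` there is a refutation of size at most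
`m ^ (20 t)`. Second part, the consequence in the form of the question: for every constant `t ≥ 1`
there is a function `M n > n` with refutations of size at most
`exp (80 t n ^ (1 / (t + 1)) (log n) ^ (t / (t + 1)))`. For `t = 1` this is the theorem of Buss and
Pitassi. The exponent of `n` tends to `0` when the constant `t` grows.
-/

set_option autoImplicit false

open Pool.Agent.Work.MP_f7ef37_lc

theorem Pool.Agent.Results.MP_f7ef37_lc.PigeonholeUpperBound.result :
    (∀ t n L m : ℕ, 1 ≤ t → 2 ≤ n → n ^ L ≤ m → n ≤ L ^ (t + 1) * Nat.log 2 n →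
      HasRefutation t m n ((m : ℝ) ^ (20 * t))) ∧
    ∀ t : ℕ, 1 ≤ t → ∃ M : ℕ → ℕ, (∀ n, n < M n) ∧ ∀ n, 2 ≤ n →
      HasRefutation t (M n) n
        (Real.exp (80 * t * (n : ℝ) ^ (1 / ((t : ℝ) + 1)) *
          Real.log n ^ ((t : ℝ) / (t + 1)))) := by
  refine ⟨Up.upper, fun t ht => ?_⟩
  have h : ∀ n : ℕ, ∃ m : ℕ, n < m ∧ (2 ≤ n → HasRefutation t m n
      (Real.exp (80 * t * (n : ℝ) ^ (1 / ((t : ℝ) + 1)) *
        Real.log n ^ ((t : ℝ) / (t + 1))))) := by
    intro n
    by_cases hn : 2 ≤ n
    · obtain ⟨m, h1, h2⟩ := Up.explicit t n ht hn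
      exact ⟨m, h1, fun _ => h2⟩
    · exact ⟨n + 1, Nat.lt_succ_self n, fun h => absurd h hn⟩
  choose M hM using h
  exact ⟨M, fun n => (hM n).1, fun n hn => (hM n).2 hn⟩
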